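import Pool.Agent.Q241.OP.Fin

/-!
# Pair correlation without the Riemann hypothesis: one side, and large distances, suffice

No hypothesis is assumed.  `Nstar T a` is the pair count `N*(T, a)` of the problem and `P a` the
constant of the conjecture.

Idea of the proof.  For small `δ` the unconditional form of Montgomery's theorem is applied to the
even function `k(x) = ∫_1^2 sinc²(π δ R x) dR / R`, which is band-limited and decreasing on
`[0, ∞)`; the zeros off the line enter with an error `O(δ²)`, while `k(0) = log 2`.  Partial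
summation turns the pair sum into `(diagonal) log 2 + ∫ (number of pairs with difference ≤ y) g(y) dy`
with `g = -k' ≥ 0`, a mass which moves to infinity as `δ → 0`.  Hence lower bounds for the number of
pairs at large distances bound the diagonal, which contains the multiple zeros and the pairs of
zeros symmetric about the critical line.  Once almost all zeros are on the line there is no error
term, and the one-sided information can be closed.
-/

open Filter Topology

namespace Pool.Agent.Results.MP_f58427_nt.LargeDistances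

/-- multiplicity of `s` as a zero of the Riemann zeta function (order of vanishing at `s`) -/
noncomputable def zmult (s : ℂ) : ℕ := analyticOrderNatAt riemannZeta s

/-- the nontrivial zeros of `ζ` -/
def ZZ : Set ℂ := {s : ℂ | riemannZeta s = 0 ∧ 0 < s.re ∧ s.re < 1}

/-- `N*(T, a)` as in the problem: the number of ordered pairs `(γ, γ')` of ordinates of nontrivial
zeros, counted with multiplicity, with `0 < γ ≤ T` and `0 < γ - γ' ≤ 2πa / log T` -/
noncomputable def Nstar (T a : ℝ) : ℕ :=
  ∑ᶠ p ∈ {p : ℂ × ℂ | p.1 ∈ ZZ ∧ p.2 ∈ ZZ ∧ 0 < p.1.im ∧ p.1.im ≤ T ∧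
    0 < p.1.im - p.2.im ∧ p.1.im - p.2.im ≤ 2 * Real.pi * a / Real.log T}, zmult p.1 * zmult p.2

/-- the number of nontrivial zeros with ordinate in `(0, T]` and property `A`, counted with
multiplicity -/
noncomputable def Num (A : ℂ → Prop) (T : ℝ) : ℕ :=
  ∑ᶠ s ∈ {s : ℂ | s ∈ ZZ ∧ 0 < s.im ∧ s.im ≤ T ∧ A s}, zmult s

/-- the constant of the conjecture -/
noncomputable def P (a : ℝ) : ℝ :=
  1 / (2 * Real.pi) * ∫ u in (0 : ℝ)..a, (1 - (Real.sin (Real.pi * u) / (Real.pi * u)) ^ 2)

/-- the lower limit of `N*(T, a) / (T log T)` is at least `c` -/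
def Low (a c : ℝ) : Prop := ∀ ε : ℝ, 0 < ε → ∀ᶠ T : ℝ in atTop,
  (c - ε) * (T * Real.log T) ≤ Nstar T a

/-- the lower half of the conjecture for large distances, up to `η / (2π)` and an error which tends
to zero as `a → ∞` -/
def LowLarge (η : ℝ) : Prop :=
  ∀ ε : ℝ, 0 < ε → ∃ A : ℝ, ∀ a : ℝ, A ≤ a → Low a (P a - (η + ε) / (2 * Real.pi))

/-- almost all zeros are simple and on the critical line -/
def Good : Prop := Tendsto (fun T => (Num (fun s => s.re ≠ 1 / 2 ∨ deriv riemannZeta s = 0) T : ℝ) /
  Num (fun _ => True) T) atTop (𝓝 0)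

/-- one-sided bound (upper for `s = 1`, lower for `s = -1`) for the pairs at distance in
`(a, a + ℓ]`, for all large `a`, with an exponentially small loss -/
def Win (ℓ s : ℝ) : Prop := ∃ C c A : ℝ, 0 < C ∧ 0 < c ∧ 0 < A ∧ ∀ a : ℝ, A ≤ a →
  ∀ ε : ℝ, 0 < ε → ∀ᶠ T : ℝ in atTop,
    s * (((Nstar T (a + ℓ) : ℝ) - Nstar T a) / (T * Real.log T) - (P (a + ℓ) - P a)) ≤
      C * Real.exp (-(c * a)) + ε

/-- the conjecture (Q1) -/
def Mont : Prop := ∀ a : ℝ, 0 < a → Tendsto (fun T => (Nstar T a : ℝ) / (T * Real.log T)) atTop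
  (𝓝 (P a))

/-- Without hypothesis:
(1) if `η ≥ 0` and the lower half of the conjecture holds for large distances up to `η / (2π)`, then
the proportion of the zeros which are multiple or off the critical line has upper limit at most
`2η`;
(2) the lower half of the conjecture implies the conjecture, and that almost all zeros are simple
and on the critical line;
(3) if almost all zeros are on the critical line, then the conjecture is equivalent to one-sided
bounds, with exponentially small loss, for the windows of two incommensurable lengths;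
(4) the conjecture is equivalent to its lower half for large distances (up to an error tending to
zero) together with the bounds in (3);
(5) the conjecture for all large `a` implies the conjecture for all `a > 0`, and that almost all
zeros are simple and on the critical line. -/
theorem result :
    (∀ η : ℝ, 0 ≤ η → LowLarge η → ∀ ε : ℝ, 0 < ε → ∀ᶠ T : ℝ in atTop,
      (Num (fun s => s.re ≠ 1 / 2 ∨ deriv riemannZeta s = 0) T : ℝ) ≤
        (2 * η + ε) * Num (fun _ => True) T) ∧
    ((∀ a : ℝ, 0 < a → Low a (P a)) → Mont ∧ Good) ∧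
    (Tendsto (fun T => (Num (fun s => s.re ≠ 1 / 2) T : ℝ) / Num (fun _ => True) T) atTop (𝓝 0) →
      ∀ ℓ₁ ℓ₂ s₁ s₂ : ℝ, 0 < ℓ₁ → 0 < ℓ₂ → Irrational (ℓ₁ / ℓ₂) → (s₁ = 1 ∨ s₁ = -1) →
        (s₂ = 1 ∨ s₂ = -1) → (Mont ↔ Win ℓ₁ s₁ ∧ Win ℓ₂ s₂)) ∧
    (∀ ℓ₁ ℓ₂ s₁ s₂ : ℝ, 0 < ℓ₁ → 0 < ℓ₂ → Irrational (ℓ₁ / ℓ₂) → (s₁ = 1 ∨ s₁ = -1) →
      (s₂ = 1 ∨ s₂ = -1) → (Mont ↔ LowLarge 0 ∧ Win ℓ₁ s₁ ∧ Win ℓ₂ s₂)) ∧
    (∀ A : ℝ, (∀ a : ℝ, A ≤ a → Tendsto (fun T => (Nstar T a : ℝ) / (T * Real.log T)) atTop
      (𝓝 (P a))) → Mont ∧ Good) :=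
  Q241.OP.main

end Pool.Agent.Results.MP_f58427_nt.LargeDistances
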