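import Pool.Agent.Q278.MC.R

/-!
# The Gaussian limit of the zeros of zeta at mesoscopic scales, without any hypothesis

Let `f` be a smooth real function of compact support, let `L = L(T)` tend to infinity with
`L = o(log T)`, and for `T ≤ t ≤ 2T` let

  `stat f L T t = ∑_ρ f((γ - t) log T / (2πL)) - L ∫ f`,

the sum over all nontrivial zeros with multiplicity.  These are windows of about `L` zeros, so all
scales strictly between the mean gap and distance `1` are allowed.  No hypothesis is assumed.

(1) For all test functions `f_1, ..., f_k` the vector `(stat f_j)` converges in law, for `t` uniform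
in `[T, 2T]`, to the centred Gaussian vector with covariance matrix
`cov f g = ∫ |ξ| Re(𝓕 f(ξ) conj 𝓕 g(ξ)) dξ`, the covariance of the sine process (the GUE prediction)
at large scales.  The covariance matrix is positive semidefinite.

(2) For a single `f ≠ 0` the variance is positive and the distribution functions converge at every
point.

Under the Riemann hypothesis this is the theorem of Rodgers and of Bourgade and Kuan (2014).  The
unconditional theorem of Maples and Rodgers (2013) concerns test functions of diverging variance.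

Proof.  The explicit formula replaces the statistic by a sum over the primes up to `X`, with
`log X = o(log T)`.  A zero at distance `b` from the critical line changes its term by a factor
controlled by `exp(C b W log T / L)`, `W = L^{1/3}`, and is paired with its mirror image; a zero density
theorem near the critical line bounds the mean of the sum of these changes by `o(1)`.  The sum over the
primes is Gaussian by its moments, computed with the mean value theorem for Dirichlet polynomials.
-/

set_option autoImplicit false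

open Filter Topology MeasureTheory ProbabilityTheory
open scoped FourierTransform ContDiff ComplexConjugate BoundedContinuousFunction

namespace Pool.Agent.Results.MP_f58427_nt.MesoscopicCLT

/-- multiplicity of `s` as a zero of the Riemann zeta function (order of vanishing at `s`) -/
noncomputable def zmult (s : ℂ) : ℕ := analyticOrderNatAt riemannZeta s

/-- the nontrivial zeros of `ζ` -/
def ZZ : Set ℂ := {s : ℂ | riemannZeta s = 0 ∧ 0 < s.re ∧ s.re < 1}

/-- the centred linear statistic at scale `L` -/
noncomputable def stat (f : ℝ → ℝ) (L T t : ℝ) : ℝ :=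
  ∑ᶠ s ∈ ZZ, (zmult s : ℝ) * f ((s.im - t) * Real.log T / (2 * Real.pi * L)) - L * ∫ x, f x

/-- the limiting covariance -/
noncomputable def cov (f g : ℝ → ℝ) : ℝ :=
  ∫ ξ : ℝ, |ξ| * (𝓕 (fun x => (f x : ℂ)) ξ * conj (𝓕 (fun x => (g x : ℂ)) ξ)).re

lemma stat_eq (f : ℝ → ℝ) (L T t : ℝ) : stat f L T t = Q278.MC.st f L T t := by
  unfold stat Q278.MC.st Q278.MC.SZ Q278.MC.aP zmult ZZ
  have e : ∀ s : ℂ, (s.im - t) * Real.log T / (2 * Real.pi * L) =
      Real.log T / (2 * Real.pi * L) * (s.im - t) := fun s => by ring
  simp only [e]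

lemma cov_eq (f g : ℝ → ℝ) : cov f g = Q278.MC.cv f g := rfl

lemma test_CC {f : ℝ → ℝ} (h1 : ContDiff ℝ ∞ f) (h2 : HasCompactSupport f) :
    Q278.MC.CC (Q278.MC.fc f) := by
  constructor
  · exact Complex.ofRealCLM.contDiff.comp h1
  · exact h2.comp_left (g := fun x : ℝ => (x : ℂ)) Complex.ofReal_zero

/-- **Central limit theorem for the zeros of zeta at all mesoscopic scales.** -/
theorem result (L : ℝ → ℝ) (hL : Tendsto L atTop atTop)
    (hLT : Tendsto (fun T => L T / Real.log T) atTop (𝓝 0)) :
    (∀ (k : ℕ) (f : Fin k → ℝ → ℝ), (∀ j, ContDiff ℝ ∞ (f j) ∧ HasCompactSupport (f j)) →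
      (Matrix.of fun i j => cov (f i) (f j)).PosSemidef ∧
      ∀ φ : EuclideanSpace ℝ (Fin k) →ᵇ ℝ,
        Tendsto (fun T : ℝ => (1 / T) * ∫ t in T..(2 * T),
          φ (WithLp.toLp 2 fun j => stat (f j) (L T) T t)) atTop
          (𝓝 (∫ x, φ x ∂(multivariateGaussian 0 (Matrix.of fun i j => cov (f i) (f j)))))) ∧
    (∀ f : ℝ → ℝ, ContDiff ℝ ∞ f → HasCompactSupport f → f ≠ 0 → 0 < cov f f ∧
      ∀ y : ℝ, Tendsto (fun T : ℝ => (1 / T) *
        volume.real {t : ℝ | T ≤ t ∧ t ≤ 2 * T ∧ stat f (L T) T t ≤ y}) atTop
        (𝓝 ((gaussianReal 0 (cov f f).toNNReal).real (Set.Iic y)))) := by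
  refine ⟨fun k f hf => ?_, fun f h1 h2 h0 => ?_⟩
  · have hf' : ∀ j, Q278.MC.CC (Q278.MC.fc (f j)) := fun j => test_CC (hf j).1 (hf j).2
    refine ⟨Q278.MC.cm_pos hf', fun φ => ?_⟩
    refine tendsto_of_seq_tendsto fun T hT => ?_
    have h3 := Q278.MC.joint hf' hT (hL.comp hT) (hLT.comp hT)
    have h4 := Q278.MC.weak_lim_int _ (Q278.MC.meas_ev hf' hT (hL.comp hT) (hLT.comp hT)) h3 φ
    refine (h4.congr fun n => ?_)
    simp only [Function.comp_apply, stat_eq]
    rfl
  · have hf' : Q278.MC.CC (Q278.MC.fc f) := test_CC h1 h2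
    refine ⟨Q278.MC.cv_pos hf' h0, fun y => ?_⟩
    refine tendsto_of_seq_tendsto fun T hT => ?_
    have h3 := Q278.MC.single_cdf hf' h0 hT (hL.comp hT) (hLT.comp hT) y
    refine (h3.congr fun n => ?_)
    simp only [Function.comp_apply, stat_eq]

end Pool.Agent.Results.MP_f58427_nt.MesoscopicCLT
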