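import Pool.Agent.Q276.NV.F1

/-!
# The pair correlation conjecture at large distances, and the number variance

No hypothesis is assumed.  Let `X(T) = (T/2π) log T`, let `N*(T, a)` be the number of pairs of
ordinates of the problem and `P(a) T log T` the value predicted by Q1.

(1) Number covariances.  Put `S_j(t) = N(t + 2π x_j / log T) - x_j` with `N` the counting function of
the ordinates and with points `x_j` at mutual distances at least `1`.  If `∑ d_j = 0` then the mean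
square over `0 ≤ t ≤ T` of `∑ d_j S_j(t)` is `-(1/2π²) ∑_{j ≠ k} d_j d_k log |x_j - x_k|`, up to
`C (∑ |d_j|)²`.  In particular the variance of the number of ordinates in a window of `L` mean gaps
is `(1/π²) log L + O(1)`, and neighbouring windows have covariance `-(1/2π²) log L + O(1)`.
(Fujii's unconditional formula of 1974 has the error `O(√log L)`; `O(1)` was known under the Riemann
hypothesis.)

(2) The antiderivative of the error in Q1: `∫_0^L (N*(T,a)/(T log T) - P(a)) da` is `O(1)` apart from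
the contribution of pairs with equal ordinates, and it is bounded above without exception.

(3) `N*(T, a) = (P(a) + O(1)) T log T` for every `a > 0`, with an absolute constant.

(4) For every Schwartz function `g` the pair sum of `g(·/L)` is the value predicted by Q1 up to
`O(X(T)/L²)`; the terms of order `L` and `1/L` of the prediction are confirmed.

Proof.  The kernel `(sin πLα/πα)²`, the transform of the triangle `max(0, L - |u|)`, is at most
`1/α²`.  Near `|α| ≤ 1/2` a dyadic decomposition and the unconditional form of Montgomery's theorem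
for the ordinates give the predicted value up to `O(1)`, as the errors `O(R δ³)` with `R ≤ δ^{-2}`
form a geometric series; the rest is at most a constant times `∫ |∑ e(αy_n)|²/(1 + α²) dα`, a sum over
pairs of `exp(-2π|y_n - y_m|)`, hence `O(X(T))`.
-/

set_option autoImplicit false

open Filter Topology MeasureTheory
open scoped SchwartzMap

namespace Pool.Agent.Results.MP_f58427_nt.NumberVariance

/-- multiplicity of `s` as a zero of the Riemann zeta function (order of vanishing at `s`) -/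
noncomputable def zmult (s : ℂ) : ℕ := analyticOrderNatAt riemannZeta s

/-- the nontrivial zeros of `ζ` -/
def ZZ : Set ℂ := {s : ℂ | riemannZeta s = 0 ∧ 0 < s.re ∧ s.re < 1}

/-- the number of nontrivial zeros of `ζ` with ordinate in `(0, t]`, with multiplicity -/
noncomputable def NZ (t : ℝ) : ℕ :=
  ∑ᶠ s ∈ {s : ℂ | riemannZeta s = 0 ∧ 0 < s.re ∧ s.re < 1 ∧ 0 < s.im ∧ s.im ≤ t}, zmult s

/-- `N*(T, a)`: the number of ordered pairs of ordinates with `0 < γ ≤ T` and
`0 < γ - γ' ≤ 2πa / log T`, with multiplicity -/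
noncomputable def Nstar (T a : ℝ) : ℕ :=
  ∑ᶠ p ∈ {p : ℂ × ℂ | p.1 ∈ ZZ ∧ p.2 ∈ ZZ ∧ 0 < p.1.im ∧ p.1.im ≤ T ∧
    0 < p.1.im - p.2.im ∧ p.1.im - p.2.im ≤ 2 * Real.pi * a / Real.log T}, zmult p.1 * zmult p.2

/-- the constant of the conjecture -/
noncomputable def P (a : ℝ) : ℝ :=
  1 / (2 * Real.pi) * ∫ u in (0 : ℝ)..a, (1 - (Real.sin (Real.pi * u) / (Real.pi * u)) ^ 2)

/-- `X(T) = (T/2π) log T` -/
noncomputable def X (T : ℝ) : ℝ := T * Real.log T / (2 * Real.pi)

/-- the number of ordered pairs of zeros with the same ordinate in `(0, T]`, with multiplicity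
(a zero of multiplicity `m` forms `m²` pairs with itself) -/
noncomputable def Neq (T : ℝ) : ℕ :=
  ∑ᶠ p ∈ {p : ℂ × ℂ | p.1 ∈ ZZ ∧ p.2 ∈ ZZ ∧ 0 < p.1.im ∧ p.1.im ≤ T ∧ p.2.im = p.1.im},
    zmult p.1 * zmult p.2

/-- the sum of `g((γ - γ') log T / 2πL)` over all ordered pairs of ordinates in `(0, T]`, with
multiplicity, the pairs with `γ = γ'` included -/
noncomputable def pairSum (g : ℝ → ℝ) (T L : ℝ) : ℝ :=
  ∑ᶠ p ∈ {p : ℂ × ℂ | p.1 ∈ ZZ ∧ p.2 ∈ ZZ ∧ 0 < p.1.im ∧ p.1.im ≤ T ∧ 0 < p.2.im ∧ p.2.im ≤ T},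
    (zmult p.1 : ℝ) * zmult p.2 * g ((p.1.im - p.2.im) * Real.log T / (2 * Real.pi * L))

/-- the number of ordinates up to `t + 2πx / log T`, minus `x` -/
noncomputable def S (T x t : ℝ) : ℝ := (NZ (t + 2 * Real.pi * x / Real.log T) : ℝ) - x

/-- **The pair correlation conjecture at large distances, without any hypothesis.** -/
theorem result :
    (∃ C : ℝ, ∀ (n : ℕ) (x d : Fin n → ℝ), (∀ j k, j ≠ k → 1 ≤ |x j - x k|) → ∑ j, d j = 0 →
      ∀ᶠ T : ℝ in atTop,
        |1 / T * (∫ t in (0 : ℝ)..T, (∑ j, d j * S T (x j) t) ^ 2) +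
          1 / (2 * Real.pi ^ 2) * ∑ j, ∑ k ∈ Finset.univ.erase j,
            d j * d k * (Real.log |x j - x k|)| ≤ C * (∑ j, |d j|) ^ 2) ∧
    (∃ C : ℝ, ∀ L : ℝ, 1 ≤ L → ∀ᶠ T : ℝ in atTop,
        |1 / T * (∫ t in (0 : ℝ)..T,
          ((NZ (t + 2 * Real.pi * L / Real.log T) : ℝ) - NZ t - L) ^ 2) -
            1 / Real.pi ^ 2 * Real.log L| ≤ C) ∧
    (∃ C : ℝ, ∀ L : ℝ, 1 ≤ L → ∀ᶠ T : ℝ in atTop,
        |(∫ a in (0 : ℝ)..L, ((Nstar T a : ℝ) / (T * Real.log T) - P a)) +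
          L / (4 * Real.pi) * ((Neq T : ℝ) / X T - 1)| ≤ C ∧
        (∫ a in (0 : ℝ)..L, ((Nstar T a : ℝ) / (T * Real.log T) - P a)) ≤ C) ∧
    (∃ C : ℝ, ∀ a : ℝ, 0 < a → ∀ᶠ T : ℝ in atTop,
        |(Nstar T a : ℝ) / (T * Real.log T) - P a| ≤ C) ∧
    (∀ g : 𝓢(ℝ, ℝ), ∃ C : ℝ, ∀ L : ℝ, 1 ≤ L → ∀ᶠ T : ℝ in atTop,
        |pairSum g T L / X T -
          (g 0 + ∫ u : ℝ, g (u / L) * (1 - (Real.sin (Real.pi * u) / (Real.pi * u)) ^ 2))| ≤
          C / L ^ 2) := by
  refine ⟨?_, ?_, ?_, ?_, ?_⟩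
  · obtain ⟨C, -, h⟩ := Pool.Agent.Q276.NV.cov_lim
    exact ⟨C, h⟩
  · obtain ⟨C, -, h⟩ := Pool.Agent.Q276.NV.var_lim
    refine ⟨C, fun L hL => ?_⟩
    have h1 := h 0 L (by linarith)
    rw [sub_zero] at h1
    have e : ∀ T t : ℝ, Pool.Agent.Q276.NV.DD (Pool.Agent.Q276.NV.hs T 0)
        (Pool.Agent.Q276.NV.hs T L) t =
        (NZ (t + 2 * Real.pi * L / Real.log T) : ℝ) - NZ t := by
      intro T t
      unfold Pool.Agent.Q276.NV.DD Pool.Agent.Q276.NV.hs
      rw [mul_zero, zero_div, add_zero]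
      rfl
    simp_rw [e] at h1
    exact h1
  · obtain ⟨C1, h1, h2⟩ := Pool.Agent.Q276.NV.Nstar_lim
    obtain ⟨C2, h3, h4⟩ := Pool.Agent.Q276.NV.Nstar_upper
    refine ⟨C1 + C2, fun L hL => ?_⟩
    filter_upwards [h2 L hL, h4 L hL] with T g1 g2
    exact ⟨g1.trans (by linarith), g2.trans (by linarith)⟩
  · obtain ⟨C, -, h⟩ := Pool.Agent.Q276.NV.Nstar_point
    exact ⟨C, h⟩
  · intro g
    obtain ⟨C, -, h⟩ := Pool.Agent.Q276.NV.smooth_lim g
    refine ⟨C, fun L hL => ?_⟩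
    filter_upwards [h L hL] with T hT
    have hL0 : 0 < L := by linarith
    rw [← Pool.Agent.Q276.NV.Q2_conv (fun u => g (u / L)) T] at hT
    have e1 : pairSum g T L = Pool.Agent.Y744.Q2 (fun u => g (u / L)) T (Real.log T) := by
      classical
      have e : {p : ℂ × ℂ | p.1 ∈ ZZ ∧ p.2 ∈ ZZ ∧ 0 < p.1.im ∧ p.1.im ≤ T ∧ 0 < p.2.im ∧
          p.2.im ≤ T} = ↑(Pool.Agent.Y744.Zt T ×ˢ Pool.Agent.Y744.Zt T) := by
        ext p
        rw [Finset.mem_coe, Finset.mem_product, Pool.Agent.Y744.mem_Zt, Pool.Agent.Y744.mem_Zt]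
        constructor
        · rintro ⟨h1, h2, h3, h4, h5, h6⟩
          exact ⟨⟨h1.2.1, h1.2.2, h3, h4, h1.1⟩, ⟨h2.2.1, h2.2.2, h5, h6, h2.1⟩⟩
        · rintro ⟨⟨h1, h2, h3, h4, h5⟩, ⟨k1, k2, k3, k4, k5⟩⟩
          exact ⟨⟨h5, h1, h2⟩, ⟨k5, k1, k2⟩, h3, h4, k3, k4⟩
      unfold pairSum
      rw [e, finsum_mem_coe_finset, Finset.sum_product]
      unfold Pool.Agent.Y744.Q2 Pool.Agent.Y744.QS
      refine Finset.sum_congr rfl fun s _ => Finset.sum_congr rfl fun s' _ => ?_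
      have e2 : (s.im - s'.im) * Real.log T / (2 * Real.pi * L) =
          (s.im - s'.im) * Real.log T / (2 * Real.pi) / L := by
        rw [div_div]
      rw [e2]
      rfl
    have e3 : Pool.Agent.Q276.NV.pr g L =
        g 0 + ∫ u : ℝ, g (u / L) * (1 - (Real.sin (Real.pi * u) / (Real.pi * u)) ^ 2) := by
      unfold Pool.Agent.Q276.NV.pr
      congr 1
      refine integral_congr_ae ?_
      have h0 : ∀ᵐ x : ℝ, x ≠ 0 := by
        rw [ae_iff]
        simp
      filter_upwards [h0] with x hx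
      show g (x / L) * (1 - H177.Lat.KK 1 x) = _
      rw [H177.Lat.KK_ne one_pos hx, one_mul, one_mul]
    rw [e1, ← e3]
    exact hT

end Pool.Agent.Results.MP_f58427_nt.NumberVariance
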