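import Pool.Agent.Q97.SS.Fin2

/-!
# The pair correlation conjecture is decided by Cauchy kernels at sparse scales

No hypothesis is assumed.  For a scale `a > 0` let `C(T, a)` be the sum of
`2a / (a² + ((γ - γ') log T)²)` over all pairs of ordinates in `(0, T]`, divided by
`(T / 2π) log T`.  (Under the Riemann hypothesis these are the quantities that give the mean square
of `ζ'/ζ` on the line at distance `a / (2 log T)` from the critical line.)  The conjecture predicts
`C(T, a) → 1 + 2 (1 - exp (-a)) / a²`.  We show that the conjecture holds as soon as this is true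
for the scales `a` in a set `S ⊆ [δ, ∞)` with `∑ 1/a = ∞`, for instance for the prime numbers.

Proof.  Positive definiteness of the kernels and the unconditional bound for the number of close
pairs show that the number of pairs at distance at most `y` mean spacings is `O((1 + y) T log T)`.
So the limits `A'` of the counting functions satisfy `A'(y) = O(1 + y)`, and the function
`z ↦ ∫ (A' - A)(y) k_z'(y) dy`, `k_z(y) = 2z / (z² + 4π²y²)`, is analytic for `Re z > 0` and of
polynomial growth for `Re z ≥ δ / 2`.  If it vanishes on `S` it vanishes identically (Blaschke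
products and the Phragmén–Lindelöf principle).  All its derivatives in `z²` at `z = 1` vanish;
hence all moments of `(A' - A) k_1'` with respect to `1 / (1 + 4π²y²)` vanish, and `A' = A` by the
theorem of Weierstrass.  The multiple zeros and the zeros off the critical line are contained in
the mass of the limit at `0`.
-/

set_option autoImplicit false

open Filter Topology

namespace Pool.Agent.Results.MP_f58427_nt.SparseScales

/-- multiplicity of `s` as a zero of the Riemann zeta function (order of vanishing at `s`) -/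
noncomputable def zmult (s : ℂ) : ℕ := analyticOrderNatAt riemannZeta s

/-- the nontrivial zeros of `ζ` -/
def ZZ : Set ℂ := {s : ℂ | riemannZeta s = 0 ∧ 0 < s.re ∧ s.re < 1}

/-- `N*(T, a)` as in the problem: the number of ordered pairs `(γ, γ')` of ordinates of nontrivial
zeros, counted with multiplicity, with `0 < γ ≤ T` and `0 < γ - γ' ≤ 2πa / log T` -/
noncomputable def Nstar (T a : ℝ) : ℕ :=
  ∑ᶠ p ∈ {p : ℂ × ℂ | p.1 ∈ ZZ ∧ p.2 ∈ ZZ ∧ 0 < p.1.im ∧ p.1.im ≤ T ∧
    0 < p.1.im - p.2.im ∧ p.1.im - p.2.im ≤ 2 * Real.pi * a / Real.log T}, zmult p.1 * zmult p.2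

/-- the constant of the conjecture -/
noncomputable def P (a : ℝ) : ℝ :=
  1 / (2 * Real.pi) * ∫ u in (0 : ℝ)..a, (1 - (Real.sin (Real.pi * u) / (Real.pi * u)) ^ 2)

/-- the conjecture (Q1) -/
def Mont : Prop := ∀ a : ℝ, 0 < a → Tendsto (fun T => (Nstar T a : ℝ) / (T * Real.log T)) atTop
  (𝓝 (P a))

/-- `C(T, a)`: the sum of `2a / (a² + ((γ - γ') log T)²)` over the pairs of ordinates of nontrivial
zeros in `(0, T]`, counted with multiplicity (the pairs with `γ = γ'` included), divided by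
`(T / 2π) log T` -/
noncomputable def C (T a : ℝ) : ℝ :=
  (∑ᶠ p ∈ {p : ℂ × ℂ | p.1 ∈ ZZ ∧ p.2 ∈ ZZ ∧ 0 < p.1.im ∧ p.1.im ≤ T ∧ 0 < p.2.im ∧
    p.2.im ≤ T}, (zmult p.1 : ℝ) * zmult p.2 *
      (2 * a / (a ^ 2 + ((p.1.im - p.2.im) * Real.log T) ^ 2))) / (T * Real.log T / (2 * Real.pi))

theorem C_eq (T a : ℝ) : C T a = Q97.SS.CS T a := Q97.SS.sum_eq a T

/-- Let `S` be a set of real numbers, bounded below by some `δ > 0`, with
`∑_{a ∈ S} 1 / (1 + a) = ∞`.
(1) The conjecture is equivalent to `C(T, a) → 1 + 2 (1 - exp (-a)) / a²` for all `a ∈ S`.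
(2) If `C(T, a)` has a finite limit for each `a ∈ S`, then there is a countable set `D` such that
`(N*(T, y) - N*(T, x)) / (T log T)` has a finite limit for all `x, y > 0` outside `D`.
(3) In particular the conjecture is equivalent to `C(T, p) → 1 + 2 (1 - exp (-p)) / p²` for all
prime numbers `p`. -/
theorem result :
    (∀ (δ : ℝ) (S : Set ℝ), 0 < δ → (∀ a ∈ S, δ ≤ a) →
      (¬ Summable fun a : S => 1 / (1 + (a : ℝ))) →
      ((Mont ↔ ∀ a ∈ S, Tendsto (fun T => C T a) atTop (𝓝 (1 + 2 * (1 - Real.exp (-a)) / a ^ 2))) ∧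
      ((∀ a ∈ S, ∃ l : ℝ, Tendsto (fun T => C T a) atTop (𝓝 l)) →
        ∃ D : Set ℝ, D.Countable ∧ ∀ x y : ℝ, 0 < x → 0 < y → x ∉ D → y ∉ D → ∃ L : ℝ,
          Tendsto (fun T => ((Nstar T y : ℝ) - Nstar T x) / (T * Real.log T)) atTop (𝓝 L)))) ∧
    (Mont ↔ ∀ p : ℕ, p.Prime →
      Tendsto (fun T => C T p) atTop (𝓝 (1 + 2 * (1 - Real.exp (-p)) / (p : ℝ) ^ 2))) := by
  have key : ∀ (δ : ℝ) (S : Set ℝ), 0 < δ → (∀ a ∈ S, δ ≤ a) →
      (¬ Summable fun a : S => 1 / (1 + (a : ℝ))) → (Mont ↔ ∀ a ∈ S,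
        Tendsto (fun T => C T a) atTop (𝓝 (1 + 2 * (1 - Real.exp (-a)) / a ^ 2))) := by
    intro δ S hδ hS1 hS
    simp only [C_eq]
    exact Q97.SS.main hδ hS1 hS
  refine ⟨fun δ S hδ hS1 hS => ⟨key δ S hδ hS1 hS, fun h => ?_⟩, ?_⟩
  · simp only [C_eq] at h
    exact Q97.SS.conv_N hδ hS1 hS h
  · have h1 := key 1 (Set.range fun p : Nat.Primes => ((p : ℕ) : ℝ)) one_pos (by
      rintro _ ⟨p, rfl⟩
      show (1 : ℝ) ≤ ((p : ℕ) : ℝ)
      exact_mod_cast p.2.one_lt.le) (by
      intro hs
      have hinj : Function.Injective (fun p : Nat.Primes => ((p : ℕ) : ℝ)) := by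
        intro p q hpq
        have h3 : ((p : ℕ) : ℝ) = ((q : ℕ) : ℝ) := hpq
        exact Subtype.ext (by exact_mod_cast h3)
      have h2 := ((Equiv.ofInjective _ hinj).summable_iff (f := fun a : Set.range
        (fun p : Nat.Primes => ((p : ℕ) : ℝ)) => 1 / (1 + (a : ℝ)))).mpr hs
      apply Nat.Primes.not_summable_one_div
      refine Summable.of_nonneg_of_le (fun p => by positivity) (fun p => ?_) (h2.mul_left 2)
      have hp : (1 : ℝ) ≤ ((p : ℕ) : ℝ) := by exact_mod_cast p.2.one_lt.le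
      show 1 / ((p : ℕ) : ℝ) ≤ 2 * (1 / (1 + ((p : ℕ) : ℝ)))
      rw [mul_one_div, div_le_div_iff₀ (by linarith) (by linarith)]
      linarith)
    rw [h1]
    constructor
    · intro h p hp
      exact h _ ⟨⟨p, hp⟩, rfl⟩
    · rintro h _ ⟨p, rfl⟩
      exact h p p.2

end Pool.Agent.Results.MP_f58427_nt.SparseScales
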